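import Pool.Agent.X143.WT.Lp

/-!
# Weighted translation operators on `L^p[0,1]` are never hypercyclic, nor supercyclic

If `T f = φ · f ∘ R` with `R` the translation by `α` modulo 1, then `log |T f| = log |φ| + log |f| ∘ R`,
and `a ↦ log |φ| + a ∘ R` is an isometry of the space of measurable functions with convergence in
measure. If the orbit of `F = log |f|` (modulo constants) is dense, choose times `n`, `m` at which it
is near `F + u` and `F + k u`, where `0 ≤ u ≤ 1`. Computing the orbit at time `n + m` in two ways,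
`k (u - u ∘ R^n)` is near `u - u ∘ R^m`; with `k → ∞`, `u ∘ R^n = u` on a large set. With `u(x) = x`
this shows that `n α` is an integer, so that `R^n` is the identity, and the Birkhoff sums of
`log |φ|` of such lengths, which are pairwise proportional, cannot be near both `u` and `-u`.
-/

namespace Pool.Agent.Results.MP_e40715_an.NeverSupercyclic

open MeasureTheory
open scoped ENNReal

/-- Let `1 ≤ p ≤ ∞`, let `φ` be essentially bounded on `[0,1]` and `α` real. There is exactly one
bounded operator `T` on the complex space `L^p([0,1])` with `T f (x) = φ(x) f({x + α})` for almost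
every `x`, for all `f`; and for no `f` is the set of the `c T^n f`, where `c` is a complex number and
`n ≥ 0`, dense. In particular no orbit `{T^n f : n ≥ 0}` is dense. -/
theorem result (p : ℝ≥0∞) [Fact (1 ≤ p)] (φ : ℝ → ℂ)
    (hφ : MemLp φ ∞ (volume.restrict (Set.Icc (0 : ℝ) 1))) (α : ℝ) :
    ∃ T : Lp ℂ p (volume.restrict (Set.Icc (0 : ℝ) 1)) →L[ℂ]
        Lp ℂ p (volume.restrict (Set.Icc (0 : ℝ) 1)),
      (∀ f, T f =ᵐ[volume.restrict (Set.Icc (0 : ℝ) 1)] fun x => φ x * f (Int.fract (x + α))) ∧
      (∀ T' : Lp ℂ p (volume.restrict (Set.Icc (0 : ℝ) 1)) →L[ℂ]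
        Lp ℂ p (volume.restrict (Set.Icc (0 : ℝ) 1)),
        (∀ f, T' f =ᵐ[volume.restrict (Set.Icc (0 : ℝ) 1)]
          fun x => φ x * f (Int.fract (x + α))) → T' = T) ∧
      (∀ f, ¬ Dense {g | ∃ (c : ℂ) (n : ℕ), g = c • (T ^ n) f}) ∧
      ∀ f, ¬ Dense {g | ∃ n : ℕ, g = (T ^ n) f} := by
  obtain ⟨T, hT⟩ := X143.WT.exists_WT p φ hφ α
  refine ⟨T, hT, fun T' hT' => X143.WT.WT_unique hT' hT,
    fun f => X143.WT.not_supercyclic hT f, fun f hf => X143.WT.not_supercyclic hT f ?_⟩
  refine hf.mono ?_
  rintro g ⟨n, hn⟩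
  exact ⟨1, n, by rw [one_smul]; exact hn⟩

end Pool.Agent.Results.MP_e40715_an.NeverSupercyclic
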